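import Pool.Agent.Helper68.TE.Main

set_option autoImplicit false

open Set Topology Cardinal

namespace Pool.Agent.Results.MP_7e4b22_gt.CellularityEquivalence

universe u

/-- `C_p(X)`: the continuous functions `X → ℝ` with the topology of pointwise convergence, that
is, the subspace topology from the product `ℝ^X`. -/
abbrev Cp (X : Type u) [TopologicalSpace X] : Type u := {f : X → ℝ // Continuous f}

/-- The subspace `Y ⊆ X` is t-embedded in `X`: there is a continuous map `φ : C_p(Y) → C_p(X)`
with `φ(f)` extending `f` for every `f`. -/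
def TEmbedded {X : Type u} [TopologicalSpace X] (Y : Set X) : Prop :=
  ∃ φ : Cp Y → Cp X, Continuous φ ∧ ∀ (f : Cp Y) (y : Y), (φ f).1 (y : X) = f.1 y

/-- The subspace `Y ⊆ X` is l-embedded in `X`: there is a continuous map `φ : C_p(Y) → C_p(X)`
with `φ(f)` extending `f` for every `f`, and `φ` is linear: `φ(a f + b g) = a φ(f) + b φ(g)`. -/
def LEmbedded {X : Type u} [TopologicalSpace X] (Y : Set X) : Prop :=
  ∃ φ : Cp Y → Cp X, Continuous φ ∧ (∀ (f : Cp Y) (y : Y), (φ f).1 (y : X) = f.1 y) ∧
    ∀ (a b : ℝ) (f g h : Cp Y), (∀ y, h.1 y = a * f.1 y + b * g.1 y) →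
      ∀ x, (φ h).1 x = a * (φ f).1 x + b * (φ g).1 x

/-- There is a t-embedding of `Z` in `X`. -/
def HasTEmbedding (Z : Type u) [TopologicalSpace Z] (X : Type u) [TopologicalSpace X] : Prop :=
  ∃ e : Z → X, IsEmbedding e ∧ TEmbedded (range e)

/-- There is an l-embedding of `Z` in `X`. -/
def HasLEmbedding (Z : Type u) [TopologicalSpace Z] (X : Type u) [TopologicalSpace X] : Prop :=
  ∃ e : Z → X, IsEmbedding e ∧ LEmbedded (range e)

/-- `K` is homogeneous. -/
def Homogeneous (K : Type u) [TopologicalSpace K] : Prop :=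
  ∀ x y : K, ∃ h : K ≃ₜ K, h x = y

/-- `Z` has a t-embedding in some homogeneous compact Hausdorff space. -/
def TEmbedsInHomogeneousCompact (Z : Type u) [TopologicalSpace Z] : Prop :=
  ∃ (K : Type u) (_ : TopologicalSpace K), CompactSpace K ∧ T2Space K ∧ Homogeneous K ∧
    HasTEmbedding Z K

/-- `Z` has an l-embedding in some homogeneous compact Hausdorff space. -/
def LEmbedsInHomogeneousCompact (Z : Type u) [TopologicalSpace Z] : Prop :=
  ∃ (K : Type u) (_ : TopologicalSpace K), CompactSpace K ∧ T2Space K ∧ Homogeneous K ∧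
    HasLEmbedding Z K

/-- Some homogeneous compact Hausdorff space has a pairwise disjoint family, indexed by `ι`, of
nonempty open sets. -/
def HomogeneousCompactWithCellularFamily (ι : Type u) : Prop :=
  ∃ (K : Type u) (_ : TopologicalSpace K), CompactSpace K ∧ T2Space K ∧ Homogeneous K ∧
    ∃ O : ι → Set K, (∀ t, IsOpen (O t)) ∧ (∀ t, (O t).Nonempty) ∧
      ∀ s t, s ≠ t → Disjoint (O s) (O t)

/-- For every infinite discrete space `ι`, the one-point compactification of `ι` t-embeds in a
homogeneous compact space iff it l-embeds in a homogeneous compact space iff some homogeneous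
compact space has a cellular family of size `|ι|`.  In particular, if every compact space t-embeds
in a homogeneous compact space, then homogeneous compact spaces have arbitrarily large
cellularity. -/
theorem result :
    (∀ (ι : Type u) [Infinite ι] [TopologicalSpace ι] [DiscreteTopology ι],
      (TEmbedsInHomogeneousCompact (OnePoint ι) ↔ HomogeneousCompactWithCellularFamily ι) ∧
      (LEmbedsInHomogeneousCompact (OnePoint ι) ↔ HomogeneousCompactWithCellularFamily ι)) ∧
    ((∀ (X : Type u) [TopologicalSpace X] [CompactSpace X] [T2Space X],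
        TEmbedsInHomogeneousCompact X) →
      ∀ ι : Type u, HomogeneousCompactWithCellularFamily ι) := by
  have key1 : ∀ (ι : Type u) [Infinite ι] [TopologicalSpace ι] [DiscreteTopology ι],
      TEmbedsInHomogeneousCompact (OnePoint ι) → HomogeneousCompactWithCellularFamily ι := by
    rintro ι _ _ _ ⟨K, tK, h1, h2, h3, h4⟩
    obtain ⟨W, hW1, hW2, hW3⟩ := Pool.Agent.Helper68.TE.exists_disjoint_of_hasTEmbedding h4
    exact ⟨K, tK, h1, h2, h3, W, hW1, hW2, hW3⟩
  have key2 : ∀ (ι : Type u) [Infinite ι] [TopologicalSpace ι] [DiscreteTopology ι],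
      HomogeneousCompactWithCellularFamily ι → LEmbedsInHomogeneousCompact (OnePoint ι) := by
    rintro ι _ _ _ ⟨C, tC, h1, h2, h3, O, hO, hn, hd⟩
    exact Pool.Agent.Helper68.TE.hasLEmbedding_of_disjoint ι C h3 O hO hn hd
  have key3 : ∀ (Z : Type u) [TopologicalSpace Z],
      LEmbedsInHomogeneousCompact Z → TEmbedsInHomogeneousCompact Z := by
    rintro Z _ ⟨K, tK, h1, h2, h3, h4⟩
    exact ⟨K, tK, h1, h2, h3, Pool.Agent.Helper68.TE.HasLEmbedding.hasTEmbedding h4⟩
  refine ⟨fun ι _ _ _ => ⟨⟨key1 ι, fun h => key3 _ (key2 ι h)⟩,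
    ⟨fun h => key1 ι (key3 _ h), key2 ι⟩⟩, ?_⟩
  intro H ι
  classical
  letI : TopologicalSpace (ℕ ⊕ ι) := ⊥
  haveI : DiscreteTopology (ℕ ⊕ ι) := ⟨rfl⟩
  obtain ⟨K, tK, h1, h2, h3, O, hO, hn, hd⟩ := key1 (ℕ ⊕ ι) (H (OnePoint (ℕ ⊕ ι)))
  exact ⟨K, tK, h1, h2, h3, fun t => O (Sum.inr t), fun t => hO _, fun t => hn _,
    fun s t hst => hd _ _ (fun h => hst (Sum.inr_injective h))⟩

end Pool.Agent.Results.MP_7e4b22_gt.CellularityEquivalence
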