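import Pool.Agent.Helper68.TE.Scat

set_option autoImplicit false

open Set Topology Cardinal

namespace Pool.Agent.Results.MP_7e4b22_gt.ScatteredClass

universe u

/-- `C_p(X)`: the continuous functions `X → ℝ` with the topology of pointwise convergence, that
is, the subspace topology from the product `ℝ^X`. -/
abbrev Cp (X : Type u) [TopologicalSpace X] : Type u := {f : X → ℝ // Continuous f}

/-- The subspace `Y ⊆ X` is l-embedded in `X`: there is a continuous map `φ : C_p(Y) → C_p(X)`
with `φ(f)` extending `f` for every `f`, and `φ` is linear: `φ(a f + b g) = a φ(f) + b φ(g)`. -/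
def LEmbedded {X : Type u} [TopologicalSpace X] (Y : Set X) : Prop :=
  ∃ φ : Cp Y → Cp X, Continuous φ ∧ (∀ (f : Cp Y) (y : Y), (φ f).1 (y : X) = f.1 y) ∧
    ∀ (a b : ℝ) (f g h : Cp Y), (∀ y, h.1 y = a * f.1 y + b * g.1 y) →
      ∀ x, (φ h).1 x = a * (φ f).1 x + b * (φ g).1 x

/-- There is an l-embedding of `Z` in `X`: a homeomorphism of `Z` onto an l-embedded subspace
of `X`. -/
def HasLEmbedding (Z : Type u) [TopologicalSpace Z] (X : Type u) [TopologicalSpace X] : Prop :=
  ∃ e : Z → X, IsEmbedding e ∧ LEmbedded (range e)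

/-- `Z` is (homeomorphic to) a retract of `X`. -/
def IsRetractOf (Z : Type u) [TopologicalSpace Z] (X : Type u) [TopologicalSpace X] : Prop :=
  ∃ (e : Z → X) (r : X → Z), Continuous e ∧ Continuous r ∧ ∀ z, r (e z) = z

/-- `K` is homogeneous. -/
def Homogeneous (K : Type u) [TopologicalSpace K] : Prop :=
  ∀ x y : K, ∃ h : K ≃ₜ K, h x = y

/-- `X` is scattered: every nonempty subset `S` has a point that is isolated in `S`. -/
def Scattered (X : Type u) [TopologicalSpace X] : Prop :=
  ∀ S : Set X, S.Nonempty → ∃ p ∈ S, ∃ U : Set X, IsOpen U ∧ U ∩ S = {p}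

/-- Let `X j` be nonempty scattered compact Hausdorff spaces of cardinality at most continuum such
that `X j` minus a point is always paracompact. Then every retract `Z` of the product of the `X j`
has an l-embedding in some homogeneous compact Hausdorff space `K`, and is even a retract of
`K`. -/
theorem result (J : Type u) (X : J → Type u) [∀ j, TopologicalSpace (X j)]
    [∀ j, CompactSpace (X j)] [∀ j, T2Space (X j)] [∀ j, Nonempty (X j)]
    (hs : ∀ j, Scattered (X j)) (hc : ∀ j, #(X j) ≤ 𝔠)
    (hp : ∀ j, ∀ x : X j, ParacompactSpace {y : X j // y ≠ x})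
    (Z : Type u) [TopologicalSpace Z] (hZ : IsRetractOf Z (∀ j, X j)) :
    ∃ (K : Type u) (_ : TopologicalSpace K), CompactSpace K ∧ T2Space K ∧ Homogeneous K ∧
      HasLEmbedding Z K ∧ IsRetractOf Z K := by
  obtain ⟨e', r', he', hr', h'⟩ := hZ
  obtain ⟨K, tK, h1, h2, h3, e, r, he, hr, hre⟩ :=
    (Pool.Agent.Helper68.TE.InR.pi (fun j => Pool.Agent.Helper68.TE.inR_scattered (X j) (hs j)
      (hc j) (hp j))).of_retract e' r' he' hr' h'
  exact ⟨K, tK, h1, h2, h3,
    Pool.Agent.Helper68.TE.hasLEmbedding_of_retract e r he hr hre, e, r, he, hr, hre⟩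

end Pool.Agent.Results.MP_7e4b22_gt.ScatteredClass
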